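import Pool.Agent.Q317.TH.Thin

/-!
# `RRT²₂` is not Weihrauch reducible to `thin-HT⁼²`
-/

set_option autoImplicit false

namespace Pool.Agent.Results.MP_527a81_lc.NotReducible

open Pool.Agent.H190R3.Wei Pool.Agent.Q317.TH

/-- `RRT²₂` is not Weihrauch reducible to `thin-HT⁼²`, and there is also no continuous reduction:
no two functionals induced by arbitrary (not necessarily computable) word functions form a
reduction. -/
theorem result : ¬ WLe RRT THT ∧ ∀ φ ψ : List ℕ → List ℕ, ¬ Red φ ψ RRT THT :=
  ⟨fun ⟨φ, ψ, _, _, h⟩ => no_red φ ψ h, no_red⟩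

end Pool.Agent.Results.MP_527a81_lc.NotReducible
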